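import Mathlib

set_option autoImplicit false

namespace Pool.Agent.Results.MP_bedf46_an.Attr

/-- majority of three bits -/
def maj (a b c : Bool) : Bool := (a && b) || (a && c) || (b && c)

/-- one step of the 2-line voting; the row index is a unit of `ℤ`, i.e. `1` or `-1` -/
def F (y : ℤ × ℤˣ → Bool) : ℤ × ℤˣ → Bool := fun p =>
  maj (y (p.1 - 2 * p.2, p.2)) (y (p.1 - p.2, p.2)) (y (p.1, -p.2))

/-- attractor -/
def Attractor (s : ℤ × ℤˣ → Bool) : Prop :=
  ∀ s' : ℤ × ℤˣ → Bool, {p | s' p ≠ s p}.Finite →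
    {q : (ℤ × ℤˣ) × ℕ | F^[q.2] s' q.1 ≠ F^[q.2] s q.1}.Finite

/-- ones lie in `[a, b]` on the upper row and in `[-b, -a]` on the lower row -/
def In (y : ℤ × ℤˣ → Bool) (a b : ℤ) : Prop :=
  ∀ i : ℤ, ∀ j : ℤˣ, y (i, j) = true → a ≤ j * i ∧ j * i ≤ b

theorem step (y : ℤ × ℤˣ → Bool) (a b : ℤ) (h : In y a b) (hab : -a ≤ b + 1) :
    In (F y) (a + 1) (b + 1) ∧ (0 ≤ a → In (F y) (a + 2) (b + 1)) := by
  have key : ∀ i : ℤ, ∀ j : ℤˣ, F y (i, j) = true →
      (a + 1 ≤ j * i ∧ j * i ≤ b + 1) ∧ (0 ≤ a → a + 2 ≤ j * i) := by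
    intro i j e
    have h1 := h (i - 2 * j) j
    have h2 := h (i - j) j
    have h3 := h i (-j)
    simp only [F, maj, Bool.or_eq_true, Bool.and_eq_true] at e
    rcases Int.units_eq_one_or j with rfl | rfl <;>
      rcases e with (⟨e1, e2⟩ | ⟨e1, e2⟩) | ⟨e1, e2⟩ <;>
      simp only [e1, e2, forall_true_left] at h1 h2 h3 <;>
      simp only [Units.val_one, Units.val_neg, neg_neg] at * <;> omega
  exact ⟨fun i j e => (key i j e).1, fun h0 i j e => ⟨(key i j e).2 h0, (key i j e).1.2⟩⟩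

theorem erode (y : ℤ × ℤˣ → Bool) (L : ℕ) (h : In y (-L) L) (p : ℤ × ℤˣ) :
    F^[3 * L + 1] y p = false := by
  have p1 : ∀ t : ℕ, In (F^[t] y) (t - L) (L + t) := by
    intro t
    induction t with
    | zero => simpa using h
    | succ t ih =>
      rw [Function.iterate_succ_apply']
      convert (step _ _ _ ih (by omega)).1 using 1 <;> omega
  have p2 : ∀ t : ℕ, In (F^[L + t] y) (2 * t) (2 * L + t) := by
    intro t
    induction t with
    | zero => simpa [two_mul] using p1 L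
    | succ t ih =>
      rw [← add_assoc, Function.iterate_succ_apply']
      convert (step _ _ _ ih (by omega)).2 (by omega) using 1 <;> omega
  by_contra e
  have := p2 (2 * L + 1) p.1 p.2 (by
    rw [show L + (2 * L + 1) = 3 * L + 1 by ring]; simpa using e)
  omega

theorem loc (t : ℕ) : ∀ (y z : ℤ × ℤˣ → Bool) (i : ℤ) (j : ℤˣ),
    (∀ k l, i - 2 * t ≤ k → k ≤ i + 2 * t → y (k, l) = z (k, l)) →
      F^[t] y (i, j) = F^[t] z (i, j) := by
  induction t with
  | zero => intro y z i j h; exact h i j (by simp) (by simp)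
  | succ t ih =>
    intro y z i j h
    rw [Function.iterate_succ_apply, Function.iterate_succ_apply]
    refine ih _ _ _ _ fun k l h1 h2 => ?_
    simp only [F]
    have : (l : ℤ) = 1 ∨ (l : ℤ) = -1 := by rcases Int.units_eq_one_or l with rfl | rfl <;> simp
    rw [h, h, h] <;> omega

theorem cst (b : Bool) (t : ℕ) : F^[t] (fun _ => b) = fun _ => b :=
  Function.iterate_fixed (by funext p; simp [F, maj]) t

open Classical in
/-- longer and longer blocks of ones, far apart -/
noncomputable def s : ℤ × ℤˣ → Bool := fun p =>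
  decide (∃ k : ℕ, (100 : ℤ) ^ k ≤ p.1 ∧ p.1 ≤ 2 * 100 ^ k)

theorem gap (k : ℕ) (p : ℤ × ℤˣ) (h : s p = true) : 0 < p.1 ∧
    (p.1 ≤ 2 * 100 ^ k ∨ 100 * 100 ^ k ≤ p.1) := by
  simp only [s, decide_eq_true_eq] at h
  obtain ⟨m, h1, h2⟩ := h
  refine ⟨lt_of_lt_of_le (by positivity) h1, ?_⟩
  rcases le_or_gt m k with c | c
  · have := pow_le_pow_right₀ (by norm_num : (1 : ℤ) ≤ 100) c
    omega
  · have := pow_le_pow_right₀ (by norm_num : (1 : ℤ) ≤ 100) (Nat.succ_le_of_lt c)
    rw [pow_succ] at this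
    omega

theorem big (k : ℕ) : (k : ℤ) < 100 ^ k := by exact_mod_cast Nat.lt_pow_self (by norm_num)

theorem result : ∃ s : ℤ × ℤˣ → Bool, Attractor s ∧
    ∀ (t : ℕ) (b : Bool), ¬ {p | F^[t] s p ≠ b}.Finite := by
  refine ⟨s, fun s' h => ?_, fun t b => ?_⟩
  · obtain ⟨L, hL⟩ : ∃ L : ℕ, ∀ p, s' p ≠ s p → -(L : ℤ) ≤ p.1 ∧ p.1 ≤ L := by
      obtain ⟨b, hb⟩ := (h.image fun p => p.1.natAbs).bddAbove
      exact ⟨b, fun p hp => by have : p.1.natAbs ≤ b := hb ⟨p, hp, rfl⟩; omega⟩
    obtain ⟨M, hM⟩ : ∃ M : ℕ, (M : ℤ) = 2 * 100 ^ L := ⟨2 * 100 ^ L, by push_cast; rfl⟩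
    have b1 := big L
    have far : ∀ t : ℕ, ∀ i : ℤ, ∀ j, (i < -M - 2 * t ∨ M + 2 * t < i) →
        F^[t] s' (i, j) = F^[t] s (i, j) := fun t i j hi => loc t _ _ _ _ fun k l h1 h2 => by
      by_contra c
      have := hL _ c
      omega
    have near : ∀ y : ℤ × ℤˣ → Bool, (∀ p, y p ≠ s p → -(L : ℤ) ≤ p.1 ∧ p.1 ≤ L) → ∀ i : ℤ, ∀ j,
        -M - 2 * (3 * M + 1 : ℕ) ≤ i → i ≤ M + 2 * (3 * M + 1 : ℕ) →
        F^[3 * M + 1] y (i, j) = false := by
      intro y hy i j h1 h2
      rw [← erode (fun p => y p && decide (-(M : ℤ) ≤ p.1 ∧ p.1 ≤ M)) M (fun i j e => by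
        simp only [Bool.and_eq_true, decide_eq_true_eq] at e
        rcases Int.units_eq_one_or j with rfl | rfl <;>
          simp only [Units.val_one, Units.val_neg] <;> omega) (i, j)]
      refine loc _ _ _ _ _ fun k l h3 h4 => ?_
      by_cases c : -(M : ℤ) ≤ k ∧ k ≤ M
      · simp [c]
      · have e : y (k, l) = s (k, l) := by
          by_contra d
          have := hy _ d
          omega
        have e' : s (k, l) = false := by
          by_contra d
          have := gap L _ (Bool.not_eq_false _ ▸ d)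
          omega
        simp [e, e']
    have fin : F^[3 * M + 1] s' = F^[3 * M + 1] s := by
      funext ⟨i, j⟩
      by_cases c : i < -M - 2 * (3 * M + 1 : ℕ) ∨ M + 2 * (3 * M + 1 : ℕ) < i
      · exact far _ i j c
      · rw [near s' hL i j (by omega) (by omega),
          near s (fun p hp => absurd rfl hp) i j (by omega) (by omega)]
    refine (((Set.finite_Icc (-(7 * M : ℤ)) (7 * M)).prod (Set.finite_univ (α := ℤˣ))).prod
      (Set.finite_Iic (3 * M))).subset ?_
    rintro ⟨⟨i, j⟩, t⟩ e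
    have a2 : t ≤ 3 * M := by
      by_contra c
      obtain ⟨u, rfl⟩ : ∃ u, t = u + (3 * M + 1) := ⟨t - (3 * M + 1), by omega⟩
      exact e (by simp only [Function.iterate_add_apply, fin])
    refine ⟨⟨?_, trivial⟩, a2⟩
    by_contra c
    exact e (far t i j (by simp only [Set.mem_Icc] at c; omega))
  · cases b
    · refine Set.infinite_of_injective_forall_mem
        (f := fun n : ℕ => ((100 : ℤ) ^ (n + 4 * t) + 2 * t, (1 : ℤˣ))) (fun a b e => ?_) fun n => ?_
      · simpa using e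
      · have := big (n + 4 * t)
        show F^[t] s _ ≠ false
        rw [loc t s (fun _ => true), cst]
        · simp
        · intro k l h1 h2
          simp only [s, decide_eq_true_eq]
          exact ⟨n + 4 * t, by omega, by omega⟩
    · refine Set.infinite_of_injective_forall_mem
        (f := fun n : ℕ => (-(n : ℤ) - 2 * t, (1 : ℤˣ))) (fun a b e => by simpa using e) fun n => ?_
      show F^[t] s _ ≠ true
      rw [loc t s (fun _ => false), cst]
      · simp
      · intro k l h1 h2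
        by_contra d
        have := gap 0 (k, l) (Bool.not_eq_false _ ▸ d)
        omega

end Pool.Agent.Results.MP_bedf46_an.Attr
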